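import Pool.Agent.Q189.Flex7

set_option autoImplicit false

namespace Pool.Agent.Results.MP_cf0a62_gt.GreatSphereHinge

open Pool.Agent.Q189.Flex

/-- In every sphere `S^(N+1)` (for `N ≥ 2` these are the spheres of dimension `n = N + 1 ≥ 3`) there
are an oriented pseudomanifold `K` of dimension `N` (the boundary of the cross-polytope) and a
closed curve `γ` in the configuration space of a flexible polyhedron of type `K`, which passes
through embedded flexible polyhedra for `0 < t < 1`, such that the oriented volume can be lifted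
along `γ`, and every lift has increment equal to the volume of the sphere. In particular the
oriented volume has no continuous real-valued branch on the configuration space. -/
theorem result (N : ℕ) :
    0 < sphereVol N ∧
    ∃ (V : Type) (_ : Finite V) (K : OrientedPseudomanifold N V) (γ : ℝ → V → E N),
      Continuous γ ∧ γ 1 = γ 0 ∧ (∀ t, γ t ∈ Conf K (γ 0)) ∧ (∀ t, Flexible K (γ t)) ∧
      (∀ t ∈ Set.Ioo (0 : ℝ) 1, Embedded K (γ t)) ∧
      (∃ W : ℝ → ℝ, Continuous W ∧ ∀ t ∈ Set.Icc (0 : ℝ) 1, ∀ y : E N, ‖y‖ = 1 →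
        y ∉ surface K (γ t) → Represents K (γ t) y (W t)) ∧
      (∀ W : ℝ → ℝ, ContinuousOn W (Set.Icc 0 1) →
        (∀ t ∈ Set.Icc (0 : ℝ) 1, ∃ y : E N, ‖y‖ = 1 ∧ y ∉ surface K (γ t) ∧
          Represents K (γ t) y (W t)) → W 1 - W 0 = sphereVol N) ∧
      ¬ ∃ F : (V → E N) → ℝ, ContinuousOn F (Conf K (γ 0)) ∧
        ∀ Q ∈ Conf K (γ 0), ∃ y : E N, ‖y‖ = 1 ∧ y ∉ surface K Q ∧ Represents K Q y (F Q) := by
  refine ⟨sphereVol_pos, Fin (N + 1) × Bool, inferInstance, cross N, pos, continuous_pos,
    pos_one, conf_pos, flexible_all, fun t ht => embedded_pos ht,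
    ⟨lune N, continuous_lune, fun t ht y hn hy => represents_lune ht hn hy⟩,
    fun W hW h => increment hW h, ?_⟩
  rintro ⟨F, hF, h⟩
  have h1 := increment (N := N) (W := fun t => F (pos t))
    (hF.comp continuous_pos.continuousOn fun t _ => conf_pos t)
    (fun t _ => h _ (conf_pos t))
  rw [pos_one, sub_self] at h1
  exact sphereVol_pos.ne h1

end Pool.Agent.Results.MP_cf0a62_gt.GreatSphereHinge
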